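import Mathlib

/-!
# MP_e4c1d4_an: `-Δ u = u - 1` in a half-space, `u ≥ 0` bounded on strips. Parts (helper326)

`w = u - (1 - cos t)` solves `Δ w + w = 0`, `w(y,0) = 0`, `w ≥ -(1 - cos t)`, bounded for `t ≤ 2π`.
Kernels `(1 - |y-x|²/R²)_+^m` in the horizontal variable `y`; moments `∫ φ_j(t) w(y,t) dt` on `[0,2π]`
with `φ_0 = -sin`, `φ_{j+1}'' + φ_{j+1} = φ_j`.
-/

set_option autoImplicit false

namespace Pool.Agent.X326.HS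

open MeasureTheory Set Filter Topology Real

abbrev E (n : ℕ) : Type := EuclideanSpace ℝ (Fin n)

/-- `(1 - r / R^2)_+ ^ m` -/
noncomputable def kr (m : ℕ) (R r : ℝ) : ℝ := (max 0 (1 - r / R ^ 2)) ^ m

/-- the kernel -/
noncomputable def kk {n : ℕ} (m : ℕ) (R : ℝ) (x y : E n) : ℝ := kr m R (‖y - x‖ ^ 2)

/-- the Laplacian of the kernel (for `3 ≤ m`) -/
noncomputable def lk {n : ℕ} (m : ℕ) (R : ℝ) (x y : E n) : ℝ :=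
  -(2 * (n : ℝ) * (m : ℝ) / R ^ 2) * kr (m - 1) R (‖y - x‖ ^ 2) +
    (4 * (m : ℝ) * ((m : ℝ) - 1) * ‖y - x‖ ^ 2 / R ^ 4) * kr (m - 2) R (‖y - x‖ ^ 2)

/-- the Laplacian on `E n` -/
noncomputable def lapE {n : ℕ} (v : E n → ℝ) (y : E n) : ℝ :=
  ∑ i, iteratedDeriv 2 (fun s : ℝ => v (y + s • EuclideanSpace.single i (1 : ℝ))) 0

/-- Y1: Green's formula (two integrations by parts in each direction; the kernel is `C²` with compact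
support). -/
def S_Y1 : Prop := ∀ (n m : ℕ), 3 ≤ m → ∀ (R : ℝ), 0 < R → ∀ (x : E n) (v : E n → ℝ), ContDiff ℝ 2 v →
  ∫ y, kk m R x y * lapE v y = ∫ y, lk m R x y * v y

/-- Y2: differentiation under the integral sign in `R`
(`∂_R (R^{-n} (1-q)^m) = R^{-n-1} (-n (1-q)^m + 2 m q (1-q)^{m-1})`, `q = |y-x|²/R²`). -/
def S_Y2 : Prop := ∀ (n m : ℕ), 2 ≤ m → ∀ (x : E n) (v : E n → ℝ), Continuous v → ∀ R : ℝ, 0 < R →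
  HasDerivAt (fun R : ℝ => (R ^ n)⁻¹ * ∫ y, kk m R x y * v y)
    ((R / (2 * ((m : ℝ) + 1))) * ((R ^ n)⁻¹ * ∫ y, lk (m + 1) R x y * v y)) R

/-- FU: Fubini for `k` continuous with compact support. -/
def S_FU : Prop := ∀ (n : ℕ) (w : E n → ℝ → ℝ), ContinuousOn (Function.uncurry w) (univ ×ˢ Ici 0) →
  ∀ (φ : ℝ → ℝ), Continuous φ → ∀ T : ℝ, 0 ≤ T →
    Continuous (fun y => ∫ t in (0 : ℝ)..T, φ t * w y t) ∧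
    ∀ k : E n → ℝ, Continuous k → HasCompactSupport k →
      ContinuousOn (fun t => ∫ y, k y * w y t) (Ici 0) ∧
      ∫ t in (0 : ℝ)..T, φ t * ∫ y, k y * w y t = ∫ y, k y * ∫ t in (0 : ℝ)..T, φ t * w y t

/-- TD: differentiation in `t` under the integral sign, `k` continuous with compact support. -/
def S_TD : Prop := ∀ (n : ℕ) (w : E n → ℝ → ℝ), ContDiffOn ℝ 2 (Function.uncurry w) (univ ×ˢ Ioi 0) →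
  ∀ k : E n → ℝ, Continuous k → HasCompactSupport k →
    ∃ f' : ℝ → ℝ, ∀ t : ℝ, 0 < t → HasDerivAt (fun t => ∫ y, k y * w y t) (f' t) t ∧
      HasDerivAt f' (∫ y, k y * iteratedDeriv 2 (w y) t) t

/-- KC: elementary properties of the kernels. -/
def S_KC : Prop := ∀ (n m : ℕ), 3 ≤ m →
  (∀ (R : ℝ), 0 < R → ∀ x : E n, Continuous (kk m R x) ∧ HasCompactSupport (kk m R x) ∧
    Continuous (lk m R x) ∧ HasCompactSupport (lk m R x) ∧ ∀ y, 0 ≤ kk m R x y) ∧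
  ∃ C : ℝ, 0 ≤ C ∧ ∀ (R : ℝ), 0 < R → ∀ (x : E n) (v : E n → ℝ) (M : ℝ), Continuous v →
    (∀ y, |v y| ≤ M) → |(R ^ n)⁻¹ * ∫ y, kk m R x y * v y| ≤ C * M ∧
      |(R ^ n)⁻¹ * ∫ y, lk m R x y * v y| ≤ C * M / R ^ 2

/-- KL: lower bound, giving the contradiction at the end. -/
def S_KL : Prop := ∀ (n m : ℕ) (x : E n) (v : E n → ℝ), 3 ≤ m → Continuous v → (∀ y, 0 ≤ v y) → 0 < v x →
  ∃ c : ℝ, 0 < c ∧ ∀ R : ℝ, 2 ≤ R → c / R ^ n ≤ (R ^ n)⁻¹ * ∫ y, kk m R x y * v y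

/-- O: one-dimensional. `A = lim_{t → 0+} f' t` (exists since `f''` is bounded near `0`; `A ≥ 0` since
`f 0 = 0` and `f ≥ -κ (1 - cos t)`), then integrate `φ (f'' + f + F) = 0` by parts twice. -/
def S_O : Prop := ∀ (f F f' : ℝ → ℝ) (κ : ℝ), ContinuousOn f (Ici 0) → ContinuousOn F (Ici 0) →
  f 0 = 0 → (∀ t : ℝ, 0 < t → HasDerivAt f (f' t) t ∧ HasDerivAt f' (-f t - F t) t) →
  (∀ t ∈ Icc (0 : ℝ) (2 * π), -κ * (1 - cos t) ≤ f t) →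
  ∃ A : ℝ, 0 ≤ A ∧ ∀ T ∈ Ioc (0 : ℝ) (2 * π), ∀ φ φ' ψ : ℝ → ℝ,
    (∀ t, HasDerivAt φ (φ' t) t) → (∀ t, HasDerivAt φ' (ψ t - φ t) t) → Continuous ψ → φ T = 0 →
      ∫ t in (0 : ℝ)..T, φ t * F t = -(∫ t in (0 : ℝ)..T, ψ t * f t) + φ 0 * A + φ' T * f T

/-- PH: the test functions. `φ_{j+1}(t) = ∫_t^{2π} sin(τ-t) φ_j(τ) dτ + β sin t` with `β` very negative;
`φ_{j+1}(0) = ∫ sin φ_j ≤ 0`. -/
def S_PH : Prop := ∃ φ φ' : ℕ → ℝ → ℝ, (∀ j, Continuous (φ j)) ∧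
  (∀ j t, HasDerivAt (φ j) (φ' j t) t) ∧ (∀ j t, HasDerivAt (φ' (j + 1)) (φ j t - φ (j + 1) t) t) ∧
  (∀ t, φ 0 t = - sin t) ∧ (∀ t, φ' 0 t = - cos t) ∧
  (∀ j, φ j (2 * π) = 0) ∧ (∀ j, φ j 0 ≤ 0) ∧ (∀ j, φ' j (2 * π) ≤ 0)

/-- H: the hierarchy (from PH and AV). `I_{j,m}(R) = ∫_0^{2π} φ_j e m R`; `I_{j,m}' = (R/(2(m+1))) (-I_{j-1,m+1}
+ φ_j(0) A (m+1) R + φ_j'(2π) e (m+1) R (2π)) ≤ -(R/(2(m+1))) I_{j-1,m+1}` (`I_{-1} = 0`), so by induction on `j`, for all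
`m`, `I_{j,m}` is decreasing with limit `0` (AV), hence `≥ 0`. Induction on `l`: `I_{j,m}(R) ≤ K / R^(2l)` for all `j`, all
`m ≥ 3 + l`, `R ≥ 1`: by the mean value theorem for `I_{j+1,m}` on `[R, 2R]` there is `r` with
`(R/(2(m+1))) I_{j,m+1}(2R) ≤ -I_{j+1,m}'(r) ≤ I_{j+1,m}(R)/R`. At the end the mean value theorem for `I_{0,m}`
(`φ_0 = -sin`, `φ_0'(2π) = -1`) gives `r`. -/
def S_H : Prop := ∀ (e G : ℕ → ℝ → ℝ → ℝ) (A : ℕ → ℝ → ℝ) (C : ℕ → ℝ),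
  (∀ m R, 3 ≤ m → 0 < R → ContinuousOn (e m R) (Icc 0 (2 * π)) ∧
    ContinuousOn (G m R) (Icc 0 (2 * π))) →
  (∀ m R t, 3 ≤ m → 0 < R → t ∈ Icc (0 : ℝ) (2 * π) → |e m R t| ≤ C m ∧ |G m R t| ≤ C m / R ^ 2 ∧
    -C m * (1 - cos t) ≤ e m R t) →
  (∀ m R, 3 ≤ m → 0 < R → 0 ≤ A m R) →
  (∀ m R, 3 ≤ m → 0 < R → ∀ T ∈ Ioc (0 : ℝ) (2 * π), ∀ φ φ' ψ : ℝ → ℝ,
    (∀ t, HasDerivAt φ (φ' t) t) → (∀ t, HasDerivAt φ' (ψ t - φ t) t) → Continuous ψ → φ T = 0 →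
      ∫ t in (0 : ℝ)..T, φ t * G m R t =
        -(∫ t in (0 : ℝ)..T, ψ t * e m R t) + φ 0 * A m R + φ' T * e m R T) →
  (∀ m R, ∀ φ : ℝ → ℝ, 3 ≤ m → 0 < R → Continuous φ →
    HasDerivAt (fun R => ∫ t in (0 : ℝ)..(2 * π), φ t * e m R t)
      ((R / (2 * ((m : ℝ) + 1))) * ∫ t in (0 : ℝ)..(2 * π), φ t * G (m + 1) R t) R) →
  ∀ k : ℕ, ∃ m : ℕ, 3 ≤ m ∧ ∃ K : ℝ, ∀ R : ℝ, 1 ≤ R → ∃ r ∈ Icc R (2 * R), e (m + 1) r (2 * π) ≤ K / R ^ k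

/-- AV: the averages tend to zero (first step of H). With `φ(t) = sin (T - t)`, `ψ = 0`:
`e T = A sin T - ∫_0^T sin(T-t) G`, so at `T = 2π - δ` the lower bound gives
`A sin δ ≤ C (1 - cos δ) + 2π C/R²`. -/
def S_AV : Prop := ∀ (e G : ℝ → ℝ → ℝ) (A : ℝ → ℝ) (C : ℝ),
  (∀ R, 0 < R → ContinuousOn (e R) (Icc 0 (2 * π)) ∧ ContinuousOn (G R) (Icc 0 (2 * π))) →
  (∀ R t, 0 < R → t ∈ Icc (0 : ℝ) (2 * π) → |e R t| ≤ C ∧ |G R t| ≤ C / R ^ 2 ∧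
    -C * (1 - cos t) ≤ e R t) →
  (∀ R, 0 < R → 0 ≤ A R) →
  (∀ R, 0 < R → ∀ T ∈ Ioc (0 : ℝ) (2 * π), ∀ φ φ' ψ : ℝ → ℝ,
    (∀ t, HasDerivAt φ (φ' t) t) → (∀ t, HasDerivAt φ' (ψ t - φ t) t) → Continuous ψ → φ T = 0 →
      ∫ t in (0 : ℝ)..T, φ t * G R t =
        -(∫ t in (0 : ℝ)..T, ψ t * e R t) + φ 0 * A R + φ' T * e R T) →
  ∀ ε : ℝ, 0 < ε → ∃ R₀ : ℝ, ∀ R, R₀ ≤ R → ∀ t ∈ Ioc (0 : ℝ) (2 * π), |e R t| ≤ ε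

/-- the Laplacian in `E n × ℝ` -/
noncomputable def lapU {n : ℕ} (u : E n → ℝ → ℝ) (y : E n) (t : ℝ) : ℝ :=
  lapE (fun y => u y t) y + iteratedDeriv 2 (u y) t

/-- W: the first goal. -/
def S_P : Prop := ∀ (n : ℕ) (u : E n → ℝ → ℝ), ContDiffOn ℝ 2 (Function.uncurry u) (univ ×ˢ Ici 0) →
  (∀ y t, 0 < t → -lapU u y t = u y t - 1) → (∀ y, u y 0 = 0) →
  (∀ M : ℝ, 0 < M → ∃ C : ℝ, ∀ y t, 0 ≤ t → t ≤ M → 0 ≤ u y t ∧ u y t ≤ C) →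
  ∀ y, u y (2 * π) = 0

/-- MX: integral form of the maximum principle. `g` bounded continuous with
`∂_R (R^{-n} ∫ kk m g) = (R λ / (2 (m+1))) R^{-n} ∫ kk (m+1) g` for all `x`, `R`, `m ≥ 3` and `λ > 0`, so
`g = 0`. (Let `M = sup |g| > 0`, `g x ≥ (1-ε) M`. With `c_m = ∫ (1-|y|²)_+^m`, `J_m(x,R) = R^{-n} ∫ kk m g ≤
c_m M`, `J_m(x,0+) = c_m g x`; so `J_{m+1}(x,r) ≥ c_{m+1}(1-ε) M - λ r² c_{m+2} M / (4(m+2))`, and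
`∫_0^r (λ ρ/(2(m+1))) J_{m+1}(x,ρ) dρ ≤ c_m ε M`, contradiction.) -/
def S_MX : Prop := ∀ (n : ℕ) (g : E n → ℝ) (M l : ℝ), Continuous g → (∀ y, |g y| ≤ M) → 0 < l →
  (∀ (m : ℕ) (x : E n) (R : ℝ), 3 ≤ m → 0 < R →
    ∫ y, lk m R x y * g y = l * ∫ y, kk m R x y * g y) → ∀ y, g y = 0

/-- LI: bounded harmonic in the weak sense with averages tending to zero. -/
def S_LI : Prop := ∀ (n : ℕ) (g : E n → ℝ), Continuous g →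
  (∀ (m : ℕ) (x : E n) (R : ℝ), 3 ≤ m → 0 < R → ∫ y, lk m R x y * g y = 0) →
  (∀ (x : E n), Tendsto (fun R : ℝ => (R ^ n)⁻¹ * ∫ y, kk 3 R x y * g y) atTop (𝓝 0)) → ∀ y, g y = 0

/-- FS: Fourier series on `[0, 2π]` in sines of `k t / 2`. -/
def S_FS : Prop := ∀ h : ℝ → ℝ, ContinuousOn h (Icc 0 (2 * π)) → h 0 = 0 → h (2 * π) = 0 →
  (∀ k : ℕ, 2 ≤ k → ∫ t in (0 : ℝ)..(2 * π), sin ((k : ℝ) / 2 * t) * h t = 0) →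
  ∃ a : ℝ, ∀ t ∈ Icc (0 : ℝ) (2 * π), h t = a * sin (t / 2)

end Pool.Agent.X326.HS
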